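import Mathlib

set_option autoImplicit false

/-!
# Binary digit sums, and the power of two in the binomial coefficients `C(2k,k)` and `C(3k,k)`
-/

namespace Pool.Agent.KS6_48.ElevenTwo

open Nat

/-- the sum of the binary digits -/
def s (n : ℕ) : ℕ := (Nat.digits 2 n).sum

/-- no two adjacent binary digits are both equal to one -/
def Sparse (n : ℕ) : Prop := ∀ i : ℕ, ¬ (n.testBit i = true ∧ n.testBit (i + 1) = true)

theorem s_zero : s 0 = 0 := by simp [s]

theorem s_even (r : ℕ) : s (2 * r) = s r := by
  rcases Nat.eq_zero_or_pos r with rfl | hr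
  · rfl
  · unfold s
    rw [Nat.digits_def' (by norm_num) (by omega : 0 < 2 * r)]
    simp

theorem s_odd (r : ℕ) : s (2 * r + 1) = s r + 1 := by
  unfold s
  rw [Nat.digits_def' (by norm_num) (by omega : 0 < 2 * r + 1)]
  have h1 : (2 * r + 1) % 2 = 1 := by omega
  have h2 : (2 * r + 1) / 2 = r := by omega
  rw [h1, h2, List.sum_cons, add_comm]

theorem s_pos {n : ℕ} (hn : 0 < n) : 0 < s n := by
  induction n using Nat.strong_induction_on with
  | _ n ih =>
    obtain ⟨r, rfl | rfl⟩ : ∃ r, n = 2 * r ∨ n = 2 * r + 1 := ⟨n / 2, by omega⟩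
    · rw [s_even]; exact ih r (by omega) (by omega)
    · rw [s_odd]; omega

theorem s_le (n : ℕ) : s n ≤ n := by
  induction n using Nat.strong_induction_on with
  | _ n ih =>
    obtain ⟨r, rfl | rfl⟩ : ∃ r, n = 2 * r ∨ n = 2 * r + 1 := ⟨n / 2, by omega⟩
    · rcases Nat.eq_zero_or_pos r with rfl | hr
      · simp [s_zero]
      · rw [s_even]; have := ih r (by omega); omega
    · rw [s_odd]; have := ih r (by omega); omega

/-- Legendre's formula -/
theorem legendre (n : ℕ) : padicValNat 2 n ! + s n = n := by
  have h := sub_one_mul_padicValNat_factorial (p := 2) n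
  have h2 := s_le n
  unfold s at *
  omega

theorem s_add (a b : ℕ) : s (a + b) ≤ s a + s b := by
  have h1 := legendre a
  have h2 := legendre b
  have h3 := legendre (a + b)
  have h4 : padicValNat 2 (a ! * b !) ≤ padicValNat 2 (a + b)! :=
    (padicValNat_dvd_iff_le (Nat.factorial_ne_zero _)).1
      (dvd_trans (pow_padicValNat_dvd) (Nat.factorial_mul_factorial_dvd_factorial_add a b))
  rw [padicValNat.mul (Nat.factorial_ne_zero _) (Nat.factorial_ne_zero _)] at h4
  omega

theorem s_succ (m : ℕ) : s m + 1 = padicValNat 2 (m + 1) + s (m + 1) := by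
  have h1 := legendre m
  have h2 := legendre (m + 1)
  rw [Nat.factorial_succ, padicValNat.mul (by omega : m + 1 ≠ 0) (Nat.factorial_ne_zero _)] at h2
  omega

/-- Kummer's theorem -/
theorem kummer (a b : ℕ) : padicValNat 2 ((a + b).choose a) + s (a + b) = s a + s b := by
  have h1 := legendre a
  have h2 := legendre b
  have h3 := legendre (a + b)
  have h4 := Nat.choose_mul_factorial_mul_factorial (Nat.le_add_right a b)
  rw [Nat.add_sub_cancel_left] at h4
  have h5 := congrArg (padicValNat 2) h4
  rw [padicValNat.mul (mul_ne_zero (Nat.choose_pos (by omega)).ne' (Nat.factorial_ne_zero _))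
    (Nat.factorial_ne_zero _), padicValNat.mul (Nat.choose_pos (by omega)).ne'
    (Nat.factorial_ne_zero _)] at h5
  omega

theorem val_two (k : ℕ) : padicValNat 2 ((2 * k).choose k) = s k := by
  have h := kummer k k
  rw [← two_mul, s_even] at h
  omega

theorem val_three (k : ℕ) : padicValNat 2 ((3 * k).choose k) + s (3 * k) = 2 * s k := by
  have h := kummer k (2 * k)
  rw [s_even, show k + 2 * k = 3 * k by ring] at h
  omega

theorem testBit_even_zero (r : ℕ) : (2 * r).testBit 0 = false := by
  simp [Nat.testBit_zero]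

theorem testBit_odd_zero (r : ℕ) : (2 * r + 1).testBit 0 = true := by
  simp [Nat.testBit_zero]

theorem testBit_even_succ (r i : ℕ) : (2 * r).testBit (i + 1) = r.testBit i := by
  rw [Nat.testBit_succ]
  congr 1
  omega

theorem testBit_odd_succ (r i : ℕ) : (2 * r + 1).testBit (i + 1) = r.testBit i := by
  rw [Nat.testBit_succ]
  congr 1
  omega

theorem sparse_even (r : ℕ) : Sparse (2 * r) ↔ Sparse r := by
  constructor
  · intro h i hi
    exact h (i + 1) (by rw [testBit_even_succ, testBit_even_succ]; exact hi)
  · intro h i hi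
    rcases i with _ | i
    · rw [testBit_even_zero] at hi; exact absurd hi.1 (by decide)
    · rw [testBit_even_succ, testBit_even_succ] at hi; exact h i hi

theorem sparse_one_mod_four (q : ℕ) : Sparse (4 * q + 1) ↔ Sparse q := by
  have e : 4 * q + 1 = 2 * (2 * q) + 1 := by ring
  constructor
  · intro h i hi
    refine h (i + 2) ?_
    rw [e, testBit_odd_succ, testBit_odd_succ, testBit_even_succ, testBit_even_succ]
    exact hi
  · intro h i hi
    rcases i with _ | _ | i
    · rw [e, testBit_odd_succ, testBit_even_zero] at hi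
      exact absurd hi.2 (by decide)
    · rw [e, testBit_odd_succ, testBit_even_zero] at hi
      exact absurd hi.1 (by decide)
    · rw [e, testBit_odd_succ, testBit_odd_succ, testBit_even_succ, testBit_even_succ] at hi
      exact h i hi

theorem not_sparse_three_mod_four (q : ℕ) : ¬ Sparse (4 * q + 3) := by
  intro h
  refine h 0 ?_
  rw [show 4 * q + 3 = 2 * (2 * q + 1) + 1 by ring, testBit_odd_zero, testBit_odd_succ,
    testBit_odd_zero]
  exact ⟨rfl, rfl⟩

/-- `m + 2m` is computed without carries if and only if no two adjacent digits of `m` are ones -/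
theorem s_three (m : ℕ) : s (3 * m) = 2 * s m ↔ Sparse m := by
  induction m using Nat.strong_induction_on with
  | _ m ih =>
    obtain ⟨q, rfl | rfl | rfl⟩ : ∃ q, m = 2 * q ∨ m = 4 * q + 1 ∨ m = 4 * q + 3 := by
      rcases Nat.even_or_odd' m with ⟨c, rfl | rfl⟩
      · exact ⟨c, Or.inl rfl⟩
      · rcases Nat.even_or_odd' c with ⟨d, rfl | rfl⟩
        · exact ⟨d, Or.inr (Or.inl (by ring))⟩
        · exact ⟨d, Or.inr (Or.inr (by ring))⟩
    · rcases Nat.eq_zero_or_pos q with rfl | hq
      · simp only [mul_zero, s_zero, true_iff]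
        intro i hi
        simp at hi
      · rw [show 3 * (2 * q) = 2 * (3 * q) by ring, s_even, s_even, sparse_even]
        exact ih q (by omega)
    · rw [show 3 * (4 * q + 1) = 2 * (2 * (3 * q) + 1) + 1 by ring,
        show 4 * q + 1 = 2 * (2 * q) + 1 by ring, s_odd, s_odd, s_odd, s_even,
        show 2 * (2 * q) + 1 = 4 * q + 1 by ring, sparse_one_mod_four, ← ih q (by omega)]
      omega
    · have h1 : s (3 * (4 * q + 3)) = s (3 * q + 2) + 1 := by
        rw [show 3 * (4 * q + 3) = 2 * (2 * (3 * q + 2)) + 1 by ring, s_odd, s_even]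
      have h2 : s (4 * q + 3) = s q + 2 := by
        rw [show 4 * q + 3 = 2 * (2 * q + 1) + 1 by ring, s_odd, s_odd]
      have h3 := s_add (3 * q) 2
      have h4 : s 2 = 1 := by simp [s]
      have h5 : s (3 * q) ≤ 2 * s q := by
        have := s_add q (2 * q)
        rw [s_even, show q + 2 * q = 3 * q by ring] at this
        omega
      rw [h1, h2]
      constructor
      · intro h; omega
      · intro h; exact absurd h (not_sparse_three_mod_four q)

theorem s_pow (k : ℕ) : s (2 ^ k) = 1 := by
  induction k with
  | zero => simp [s]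
  | succ k ih => rw [pow_succ, mul_comm, s_even, ih]

theorem sparse_pow (k : ℕ) : Sparse (2 ^ k) := by
  induction k with
  | zero =>
    rw [show 2 ^ 0 = 4 * 0 + 1 by norm_num, sparse_one_mod_four]
    intro i hi
    simp at hi
  | succ k ih => rw [pow_succ, mul_comm, sparse_even]; exact ih

theorem eq_pow_of_s {n : ℕ} (h : s n = 1) : ∃ k, n = 2 ^ k := by
  induction n using Nat.strong_induction_on with
  | _ n ih =>
    obtain ⟨r, rfl | rfl⟩ : ∃ r, n = 2 * r ∨ n = 2 * r + 1 := ⟨n / 2, by omega⟩
    · have hr : 0 < r := by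
        rcases Nat.eq_zero_or_pos r with rfl | hr
        · simp [s_zero] at h
        · exact hr
      rw [s_even] at h
      obtain ⟨k, hk⟩ := ih r (by omega) h
      exact ⟨k + 1, by rw [hk]; ring⟩
    · rw [s_odd] at h
      have hr : r = 0 := by
        by_contra hr
        have := s_pos (Nat.pos_of_ne_zero hr)
        omega
      exact ⟨0, by rw [hr]; norm_num⟩

end Pool.Agent.KS6_48.ElevenTwo
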